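import Pool.Agent.Q42.SH.Om

/-!
# `Ω(n + h)` and arbitrary sequences: independence for all but a bounded number of shifts

Let `B` be a bounded function and `ξ` an arbitrary bounded sequence, for example
`ξ(n) = a(Ω(n), Ω(n+1), ..., Ω(n+k))`, or the indicator function of any event.  For all but at most
`1 / δ²` shifts `h` the mean of `B(Ω(n + h)) ξ(n)` is within `δ` of the product of the mean of `B(Ω)` and
the mean of `ξ`.  The centred functions `B(Ω(n + h)) - M` are asymptotically orthogonal for different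
`h`, and Bessel's inequality applies to every `ξ`.
-/

set_option autoImplicit false

open Finset Filter

namespace Pool.Agent.Results.MP_e0aac0_nt.ArbitraryEvents

/-- `Ω(n)`, the number of prime factors counted with multiplicity -/
def Om (n : ℕ) : ℕ := ArithmeticFunction.cardFactors n

/-- `e(x) = exp(2 π i x)` -/
noncomputable def e (x : ℝ) : ℂ := Complex.exp (2 * Real.pi * x * Complex.I)

/-- the mean of `B(Ω(n))` over `n ≤ N` -/
noncomputable def mean (B : ℕ → ℂ) (N : ℕ) : ℂ := (∑ n ∈ Icc 1 N, B (Om n)) / N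

/-- the variance of `B(Ω(n))` over `n ≤ N` -/
noncomputable def variance (B : ℕ → ℂ) (N : ℕ) : ℝ := (∑ n ∈ Icc 1 N, ‖B (Om n) - mean B N‖ ^ 2) / N

open Classical in
/-- the sum of `1 / N` over the `N ≤ X` in `E` -/
noncomputable def logCount (E : Set ℕ) (X : ℕ) : ℝ := ∑ N ∈ Icc 1 X, if N ∈ E then (1 : ℝ) / N else 0

/-- logarithmic density zero -/
def LogDensityZero (E : Set ℕ) : Prop :=
  Tendsto (fun X : ℕ => logCount E X / Real.log X) atTop (nhds 0)

open Classical in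
/-- The scale `N` is good for the function `B`, the shifts `H` and `ε`: for all complex sequences `ξ` and
all real `α_h` the sum over `h ∈ H` of the squares of the absolute values of
`∑_{n ≤ N} (B(Ω(n + h)) - M) ξ(n) e(α_h n)` is at most `(V + ε) N ∑_{n ≤ N} |ξ(n)|²`, where `M` and `V`
are the mean and the variance of `B(Ω(n))`; hence, if `|ξ| ≤ 1`, for every `δ > 0` at most
`(V + ε) / δ²` of the `h ∈ H` are such that one of these sums (for some real `α`) is `≥ δ N`. -/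
def Good (B : ℕ → ℂ) (H : Finset ℕ) (ε : ℝ) (N : ℕ) : Prop :=
  (∀ (ξ : ℕ → ℂ) (α : ℕ → ℝ),
    ∑ h ∈ H, ‖∑ n ∈ Icc 1 N, (B (Om (n + h)) - mean B N) * ξ n * e (α h * n)‖ ^ 2 ≤
      (variance B N + ε) * N * ∑ n ∈ Icc 1 N, ‖ξ n‖ ^ 2) ∧
  ∀ ξ : ℕ → ℂ, (∀ n, ‖ξ n‖ ≤ 1) → ∀ δ : ℝ, 0 < δ →
    ((H.filter (fun h => ∃ α : ℝ,
      δ * N ≤ ‖∑ n ∈ Icc 1 N, (B (Om (n + h)) - mean B N) * ξ n * e (α * n)‖)).card : ℝ) ≤
        (variance B N + ε) / δ ^ 2

lemma good_of (B : ℕ → ℂ) (H : Finset ℕ) (ε : ℝ) (hε : 0 < ε) (N : ℕ) (hN : 1 ≤ N)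
    (h : ∀ (ξ : ℕ → ℂ) (α : ℕ → ℝ),
      ∑ h ∈ H, ‖∑ n ∈ Icc 1 N, Pool.Agent.Q42.SH.cB B N h n * ξ n *
        Pool.Agent.Helper602.MK.ee (α h * n)‖ ^ 2 ≤
          (Pool.Agent.Q42.SH.vB B N + ε) * N * ∑ n ∈ Icc 1 N, ‖ξ n‖ ^ 2) : Good B H ε N := by
  classical
  have hN0 : (0 : ℝ) < N := by exact_mod_cast hN
  have hV : 0 ≤ variance B N := by
    unfold variance
    positivity
  refine ⟨h, fun ξ hξ δ hδ => ?_⟩
  have pick : ∀ h : ℕ, ∃ a : ℝ, (∃ a : ℝ, δ * N ≤ ‖∑ n ∈ Icc 1 N, (B (Om (n + h)) - mean B N) * ξ n *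
      e (a * n)‖) → δ * N ≤ ‖∑ n ∈ Icc 1 N, (B (Om (n + h)) - mean B N) * ξ n * e (a * n)‖ := by
    intro h
    by_cases hh : ∃ a : ℝ, δ * N ≤ ‖∑ n ∈ Icc 1 N, (B (Om (n + h)) - mean B N) * ξ n * e (a * n)‖
    · obtain ⟨a, ha⟩ := hh
      exact ⟨a, fun _ => ha⟩
    · exact ⟨0, fun hc => absurd hc hh⟩
  choose α hα using pick
  have h1 : ∑ h ∈ H, ‖∑ n ∈ Icc 1 N, (B (Om (n + h)) - mean B N) * ξ n * e (α h * n)‖ ^ 2 ≤
      (variance B N + ε) * N ^ 2 := by
    refine (h ξ α).trans ?_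
    have h2 : ∑ n ∈ Icc 1 N, ‖ξ n‖ ^ 2 ≤ N := by
      refine (sum_le_sum fun n _ => pow_le_one₀ (norm_nonneg _) (hξ n)).trans ?_
      simp
    calc (Pool.Agent.Q42.SH.vB B N + ε) * N * ∑ n ∈ Icc 1 N, ‖ξ n‖ ^ 2 ≤
          (variance B N + ε) * N * N := mul_le_mul_of_nonneg_left h2 (by positivity)
      _ = _ := by ring
  have h3 := Pool.Agent.Q42.SH.few H
    (fun h => ‖∑ n ∈ Icc 1 N, (B (Om (n + h)) - mean B N) * ξ n * e (α h * n)‖) _ (δ * N)
    (by positivity) h1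
  have h4 : ((H.filter (fun h => ∃ a : ℝ,
      δ * N ≤ ‖∑ n ∈ Icc 1 N, (B (Om (n + h)) - mean B N) * ξ n * e (a * n)‖)).card : ℝ) ≤
      (variance B N + ε) * N ^ 2 / (δ * N) ^ 2 := by
    refine le_trans ?_ h3
    exact_mod_cast card_le_card fun h hh => by
      rw [mem_filter] at hh ⊢
      exact ⟨hh.1, hα h hh.2⟩
  refine h4.trans (le_of_eq ?_)
  field_simp

/-- **Theorem.**
1. For every function `B` bounded by `1` there is one set `𝓔` of logarithmic density zero such that for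
   every finite set `H` of shifts and every `ε > 0` all large `N` outside `𝓔` are good for `B`, `H`, `ε`.
2. Uniformly in `B`: for all `H` and `ε > 0` there is `X₀` such that for all `X ≥ X₀` and all functions `B`
   bounded by `1` all `N ≤ X` are good for `B`, `H`, `ε` but a set of `N` with `∑ 1/N ≤ ε log X`. -/
theorem result :
    (∀ B : ℕ → ℂ, (∀ l, ‖B l‖ ≤ 1) → ∃ 𝓔 : Set ℕ, LogDensityZero 𝓔 ∧ ∀ (H : Finset ℕ) (ε : ℝ), 0 < ε →
      ∃ N₀ : ℕ, ∀ N : ℕ, N₀ ≤ N → N ∉ 𝓔 → Good B H ε N) ∧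
    ∀ (H : Finset ℕ) (ε : ℝ), 0 < ε → ∃ X₀ : ℕ, ∀ X : ℕ, X₀ ≤ X → ∀ B : ℕ → ℂ, (∀ l, ‖B l‖ ≤ 1) →
      logCount {N | ¬ Good B H ε N} X ≤ ε * Real.log X := by
  classical
  constructor
  · intro B hB
    obtain ⟨E, hE, h1⟩ := Pool.Agent.Q42.SH.bad_LZ B hB
    refine ⟨E, hE, fun H ε hε => ?_⟩
    set κ : ℝ := ε / (2 * (H.card + 1)) with hκ
    have hκ0 : 0 < κ := by positivity
    have hκ1 : H.card * κ ≤ ε / 2 := by
      rw [hκ]
      calc H.card * (ε / (2 * (H.card + 1))) ≤ (H.card + 1) * (ε / (2 * (H.card + 1))) :=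
            mul_le_mul_of_nonneg_right (by linarith) (by positivity)
        _ = ε / 2 := by field_simp
    obtain ⟨N₁, h2⟩ := Pool.Agent.Q42.SH.bes_om H ε hε κ hκ0.le hκ1
    have hM : ∀ p : ℕ × ℕ, ∃ N₀ : ℕ, p.1 ≠ p.2 → ∀ N : ℕ, N₀ ≤ N → N ∉ E →
        N ∉ Pool.Agent.Q42.SH.badB B p.1 p.2 κ := by
      intro p
      by_cases hp : p.1 ≠ p.2
      · obtain ⟨N₀, h3⟩ := h1 p.1 p.2 hp κ hκ0
        exact ⟨N₀, fun _ => h3⟩
      · exact ⟨0, fun hc => absurd hc hp⟩
    choose M hM using hM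
    refine ⟨N₁ + (∑ p ∈ H ×ˢ H, M p) + 1, fun N hN hNE => ?_⟩
    refine good_of B H ε hε N (by omega) (h2 N (by omega) B hB fun a ha c hc hne => ?_)
    refine hM (a, c) hne N ?_ hNE
    have := single_le_sum (f := M) (fun _ _ => Nat.zero_le _)
      (show (a, c) ∈ H ×ˢ H from mem_product.2 ⟨ha, hc⟩)
    omega
  · intro H ε hε
    set κ : ℝ := ε / (2 * (H.card + 1)) with hκ
    have hκ0 : 0 < κ := by positivity
    have hκ1 : H.card * κ ≤ ε / 2 := by
      rw [hκ]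
      calc H.card * (ε / (2 * (H.card + 1))) ≤ (H.card + 1) * (ε / (2 * (H.card + 1))) :=
            mul_le_mul_of_nonneg_right (by linarith) (by positivity)
        _ = ε / 2 := by field_simp
    obtain ⟨N₁, h2⟩ := Pool.Agent.Q42.SH.bes_om H ε hε κ hκ0.le hκ1
    set ε' : ℝ := ε / (2 * (H.card * H.card + 1)) with hε'
    have hε'0 : 0 < ε' := by positivity
    have hX : ∀ p : ℕ × ℕ, ∃ X₀ : ℕ, p.1 ≠ p.2 → ∀ X : ℕ, X₀ ≤ X → ∀ B : ℕ → ℂ, (∀ l, ‖B l‖ ≤ 1) →
        (∑ N ∈ Icc 1 X, if N ∈ Pool.Agent.Q42.SH.badB B p.1 p.2 κ then (1 : ℝ) / N else 0) ≤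
          ε' * Real.log X := by
      intro p
      by_cases hp : p.1 ≠ p.2
      · obtain ⟨X₀, h3⟩ := Pool.Agent.Q42.SH.bad_sum p.1 p.2 hp κ hκ0 ε' hε'0
        exact ⟨X₀, fun _ => h3⟩
      · exact ⟨0, fun hc => absurd hc hp⟩
    choose Y hY using hX
    have hlog : Tendsto (fun X : ℕ => Real.log X) atTop atTop :=
      Real.tendsto_log_atTop.comp tendsto_natCast_atTop_atTop
    obtain ⟨X₂, hX₂⟩ := eventually_atTop.1 (hlog.eventually_ge_atTop ((N₁ + 1) * 2 / ε))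
    refine ⟨(∑ p ∈ H ×ˢ H, Y p) + X₂, fun X hX B hB => ?_⟩
    have hl := hX₂ X (by omega)
    rw [div_le_iff₀ hε] at hl
    have hl0 : 0 ≤ Real.log X := Real.log_natCast_nonneg X
    obtain ⟨T, hT⟩ : ∃ T : Set ℕ, T = {N | ¬ Good B H ε N} := ⟨_, rfl⟩
    have hTm : ∀ N, N ∈ T ↔ ¬ Good B H ε N := by
      intro N
      rw [hT]
      rfl
    rw [← hT]
    have h3 : ∀ N ∈ Icc 1 X, (if N ∈ T then (1 : ℝ) / N else 0) ≤
        (if N < N₁ + 1 then 1 else 0) + ∑ p ∈ (H ×ˢ H).filter (fun p => p.1 ≠ p.2),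
          if N ∈ Pool.Agent.Q42.SH.badB B p.1 p.2 κ then (1 : ℝ) / N else 0 := by
      intro N hN
      rw [mem_Icc] at hN
      have hN0 : (0 : ℝ) < N := by exact_mod_cast (by omega : 0 < N)
      have hN1 : (1 : ℝ) ≤ N := by exact_mod_cast hN.1
      have hs : 0 ≤ ∑ p ∈ (H ×ˢ H).filter (fun p => p.1 ≠ p.2),
          if N ∈ Pool.Agent.Q42.SH.badB B p.1 p.2 κ then (1 : ℝ) / N else 0 :=
        sum_nonneg fun p _ => by split_ifs <;> positivity
      by_cases hg : Good B H ε N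
      · rw [if_neg (fun hc => (hTm N).1 hc hg)]
        split_ifs <;> positivity
      · rw [if_pos ((hTm N).2 hg)]
        by_cases hsm : N < N₁ + 1
        · rw [if_pos hsm]
          have : (1 : ℝ) / N ≤ 1 := by rwa [div_le_one hN0]
          linarith
        · rw [if_neg hsm, zero_add]
          obtain ⟨a, ha, c, hc, hne, hbad⟩ : ∃ a ∈ H, ∃ c ∈ H, a ≠ c ∧
              N ∈ Pool.Agent.Q42.SH.badB B a c κ := by
            by_contra hcc
            push Not at hcc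
            exact hg (good_of B H ε hε N hN.1 (h2 N (by omega) B hB hcc))
          have hmem : (a, c) ∈ (H ×ˢ H).filter (fun p : ℕ × ℕ => p.1 ≠ p.2) :=
            mem_filter.2 ⟨mem_product.2 ⟨ha, hc⟩, hne⟩
          have := single_le_sum (f := fun p : ℕ × ℕ =>
            if N ∈ Pool.Agent.Q42.SH.badB B p.1 p.2 κ then (1 : ℝ) / N else 0)
            (fun p _ => by split_ifs <;> positivity) hmem
          rwa [if_pos hbad] at this
    unfold logCount
    refine (sum_le_sum h3).trans ?_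
    rw [sum_add_distrib, sum_comm]
    have h5 : ∑ N ∈ Icc 1 X, (if N < N₁ + 1 then (1 : ℝ) else 0) ≤ N₁ + 1 := by
      rw [← sum_filter, sum_const, nsmul_eq_mul, mul_one]
      have h7 : (Icc 1 X).filter (fun n => n < N₁ + 1) ⊆ range (N₁ + 1) := by
        intro n hn
        rw [mem_range]
        exact (mem_filter.1 hn).2
      have h8 := card_le_card h7
      rw [card_range] at h8
      exact_mod_cast h8
    have h6 : ∑ p ∈ (H ×ˢ H).filter (fun p => p.1 ≠ p.2), ∑ N ∈ Icc 1 X,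
        (if N ∈ Pool.Agent.Q42.SH.badB B p.1 p.2 κ then (1 : ℝ) / N else 0) ≤ ε / 2 * Real.log X := by
      calc ∑ p ∈ (H ×ˢ H).filter (fun p => p.1 ≠ p.2), ∑ N ∈ Icc 1 X,
            (if N ∈ Pool.Agent.Q42.SH.badB B p.1 p.2 κ then (1 : ℝ) / N else 0) ≤
            ∑ p ∈ (H ×ˢ H).filter (fun p => p.1 ≠ p.2), ε' * Real.log X := by
            refine sum_le_sum fun p hp => ?_
            rw [mem_filter] at hp
            refine hY p hp.2 X ?_ B hB
            have := single_le_sum (f := Y) (fun _ _ => Nat.zero_le _) hp.1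
            omega
        _ ≤ (H.card * H.card + 1 : ℝ) * (ε' * Real.log X) := by
            rw [sum_const, nsmul_eq_mul]
            apply mul_le_mul_of_nonneg_right _ (by positivity)
            have h9 := card_filter_le (H ×ˢ H) (fun p => p.1 ≠ p.2)
            rw [card_product] at h9
            have h10 : (((H ×ˢ H).filter (fun p => p.1 ≠ p.2)).card : ℝ) ≤ H.card * H.card := by
              exact_mod_cast h9
            linarith
        _ = ε / 2 * Real.log X := by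
            rw [hε']
            field_simp
    linarith

end Pool.Agent.Results.MP_e0aac0_nt.ArbitraryEvents
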