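import Pool.Agent.Results.MP_e0aac0_nt.PowerSavingIndependence
import Pool.Agent.Q331.DRV

/-!
# Independence of `Ω(n), Ω(n + d 1), ..., Ω(n + d r)` for ALL `d` in boxes of power size around the multiples of almost every real vector

For all large `N` and all real vectors `y ∈ [N ^ (1 - ϑ), 2 N ^ (1 - ϑ)] ^ r` outside a set of measure at most
`N ^ (r (1 - ϑ) - c)`, and for all `k ≤ N ^ ϑ` with at most `N ^ (ϑ - c)` exceptions, ALL integer vectors `d` with
`|d i - k y i| ≤ N ^ c` for all `i` are such that the integer part of `Ω(n + h i) / 2` is independent, up to `ε`, of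
everything that the other `Ω(n + h j)` determine, where `h = (0, d 1, ..., d r)`. If the scale `N` has no exceptional
character, the same holds for `Ω(n + h i)` itself. Here `ϑ < 1` is arbitrary, so the constellations are near the
multiples `k y` of vectors `y` of size `N ^ (1 - ϑ)`.

`Independent`, `NonExceptional`, `dens`, `num`, `rest`, `root`, `primes` are the definitions of the starting file
`PowerSavingIndependence`. From Mathlib: `Fin.cons 0 d`: the vector `(0, d 1, ..., d r)`; `volume`: the Lebesgue measure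
on the real vectors `Fin r → ℝ`. The bound for the number of the exceptional tuples is from the starting file
`PowerSavingIndependence`.
-/

set_option autoImplicit false

namespace Pool.Agent.Results.MP_e0aac0_nt.ConstellationsAtRealVectors

open Finset hiding dens
open MeasureTheory Filter
open ArithmeticFunction (cardFactors)
open Pool.Agent.Results.MP_e0aac0_nt.PowerSavingIndependence (Independent NonExceptional dens num rest)

open Classical in
/-- The number of the `k` with `1 ≤ k ≤ K` for which not all vectors `d` of natural numbers with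
`|d i - k y i| ≤ w` for all `i` have the property `Q`. -/
noncomputable def exceptions {r : ℕ} (K : ℝ) (y : Fin r → ℝ) (w : ℝ) (Q : (Fin r → ℕ) → Prop) : ℕ :=
  ((Icc 1 ⌊K⌋₊).filter (fun k : ℕ => ∃ d : Fin r → ℕ, (∀ i, |(d i : ℝ) - k * y i| ≤ w) ∧ ¬ Q d)).card

/-- For all real vectors `y` in `[N ^ (1 - ϑ), 2 N ^ (1 - ϑ)] ^ r` outside a set of measure at most
`N ^ (r (1 - ϑ) - c)` and for all `k ≤ N ^ ϑ` with at most `N ^ (ϑ - c)` exceptions ALL vectors `d` of natural numbers
with `|d i - k y i| ≤ N ^ c` for all `i` have the property `Q`. -/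
def AtMultiples {r : ℕ} (ϑ c : ℝ) (N : ℕ) (Q : (Fin r → ℕ) → Prop) : Prop :=
  ∃ X : Set (Fin r → ℝ), MeasurableSet X ∧ volume X ≤ ENNReal.ofReal ((N : ℝ) ^ ((r : ℝ) * (1 - ϑ) - c)) ∧
    ∀ y : Fin r → ℝ, (∀ i, (N : ℝ) ^ (1 - ϑ) ≤ y i ∧ y i ≤ 2 * (N : ℝ) ^ (1 - ϑ)) → y ∉ X →
      (exceptions ((N : ℝ) ^ ϑ) y ((N : ℝ) ^ c) Q : ℝ) ≤ (N : ℝ) ^ (ϑ - c)

theorem num_nonneg {α : Type} (S : Finset α) (F : α → Prop) : 0 ≤ num S F := by
  unfold num; positivity

theorem dens_nonneg (N : ℕ) (F : ℕ → Prop) : 0 ≤ dens N F := by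
  unfold dens
  exact div_nonneg (num_nonneg _ _) (by positivity)

theorem dens_le_one (N : ℕ) (F : ℕ → Prop) : dens N F ≤ 1 := by
  classical
  unfold dens
  rcases Nat.eq_zero_or_pos N with h | h
  · subst h; simp
  · rw [div_le_one (by exact_mod_cast h)]
    unfold num
    have := card_filter_le (Icc 1 N) F
    rw [Nat.card_Icc] at this
    have h2 : ((Icc 1 N).filter F).card ≤ N := by omega
    have h3 : (((Icc 1 N).filter F).card : ℝ) ≤ N := by exact_mod_cast h2
    refine le_trans (le_of_eq ?_) h3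
    congr!

theorem dens_shift (N a : ℕ) (hN : 1 ≤ N) (F : ℕ → Prop) :
    |dens N F - dens N (fun n => F (n + a))| ≤ a / N := by
  classical
  have hN0 : (0 : ℝ) < N := by exact_mod_cast hN
  unfold dens num
  rw [← sub_div, abs_div, abs_of_pos hN0, div_le_div_iff_of_pos_right hN0]
  have h1 : ((Icc 1 N).filter F).card ≤ ((Icc 1 N).filter (fun n => F (n + a))).card + a := by
    have hsub : (Icc 1 N).filter F ⊆ (Icc 1 a) ∪ ((Icc 1 N).filter (fun n => F (n + a))).image (fun n => n + a) := by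
      intro m hm
      rw [mem_filter, mem_Icc] at hm
      by_cases hma : m ≤ a
      · exact mem_union_left _ (mem_Icc.2 ⟨hm.1.1, hma⟩)
      · apply mem_union_right
        rw [mem_image]
        refine ⟨m - a, ?_, by omega⟩
        rw [mem_filter, mem_Icc]
        refine ⟨⟨by omega, by omega⟩, ?_⟩
        rw [show m - a + a = m by omega]
        exact hm.2
    have h2 := (card_le_card hsub).trans (card_union_le _ _)
    have h3 := card_image_le (s := (Icc 1 N).filter (fun n => F (n + a))) (f := fun n => n + a)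
    rw [Nat.card_Icc] at h2
    omega
  have h2 : ((Icc 1 N).filter (fun n => F (n + a))).card ≤ ((Icc 1 N).filter F).card + a := by
    have hinj : Function.Injective (fun n : ℕ => n + a) := fun x y h => by simpa using h
    rw [← card_image_of_injective _ hinj]
    have hsub : ((Icc 1 N).filter (fun n => F (n + a))).image (fun n => n + a) ⊆
        (Icc 1 N).filter F ∪ Icc (N + 1) (N + a) := by
      intro m hm
      rw [mem_image] at hm
      obtain ⟨n, hn, rfl⟩ := hm
      rw [mem_filter, mem_Icc] at hn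
      by_cases hna : n + a ≤ N
      · exact mem_union_left _ (mem_filter.2 ⟨mem_Icc.2 ⟨by omega, hna⟩, hn.2⟩)
      · exact mem_union_right _ (mem_Icc.2 ⟨by omega, by omega⟩)
    have h3 := (card_le_card hsub).trans (card_union_le _ _)
    rw [Nat.card_Icc] at h3
    omega
  have h1' : (((Icc 1 N).filter F).card : ℝ) ≤ ((Icc 1 N).filter (fun n => F (n + a))).card + a := by
    exact_mod_cast h1
  have h2' : (((Icc 1 N).filter (fun n => F (n + a))).card : ℝ) ≤ ((Icc 1 N).filter F).card + a := by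
    exact_mod_cast h2
  rw [abs_le]
  constructor
  · have e1 : ((filter F (Icc 1 N)).card : ℝ) = ((Icc 1 N).filter F).card := rfl
    linarith
  · linarith

/-- a common shift of all coordinates -/
theorem indep_shift {r : ℕ} {s : ℕ} {ε : ℝ} {N a : ℕ} (hN : 1 ≤ N) {h : Fin (r + 1) → ℕ}
    (hi : Independent s ε N (fun i => a + h i)) : Independent s (ε + 2 * (a / N)) N h := by
  have ha : (0 : ℝ) ≤ (a : ℝ) / N := by positivity
  obtain ⟨h1, h2⟩ := hi
  constructor
  · intro i S T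
    have e1 := h1 i S T
    have e2 := dens_shift N a hN (fun n => cardFactors (n + h i) / s ∈ S ∧ rest h i n ∈ T)
    have e3 := dens_shift N a hN (fun n => rest h i n ∈ T)
    have q1 : (fun n => cardFactors (n + (a + h i)) / s ∈ S ∧ rest (fun i => a + h i) i n ∈ T) =
        fun n => cardFactors (n + a + h i) / s ∈ S ∧ rest h i (n + a) ∈ T := by
      funext n
      unfold rest
      simp only [add_assoc]
    have q2 : (fun n => rest (fun i => a + h i) i n ∈ T) = fun n => rest h i (n + a) ∈ T := by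
      funext n
      unfold rest
      simp only [add_assoc]
    rw [q1, q2] at e1
    set A := dens N (fun n => cardFactors (n + h i) / s ∈ S ∧ rest h i n ∈ T)
    set A' := dens N (fun n => cardFactors (n + a + h i) / s ∈ S ∧ rest h i (n + a) ∈ T)
    set B := dens N (fun n => rest h i n ∈ T)
    set B' := dens N (fun n => rest h i (n + a) ∈ T)
    set P := dens N (fun n => cardFactors n / s ∈ S) with hP
    have hP0 : 0 ≤ P := dens_nonneg _ _
    have hP1 : P ≤ 1 := dens_le_one _ _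
    have e4 : |P * (B - B')| ≤ a / N := by
      rw [abs_mul, abs_of_nonneg hP0]
      calc P * |B - B'| ≤ 1 * |B - B'| := mul_le_mul_of_nonneg_right hP1 (abs_nonneg _)
        _ = |B - B'| := one_mul _
        _ ≤ a / N := e3
    have e5 : A - P * B = (A' - P * B') + (A - A') - P * (B - B') := by ring
    rw [e5]
    calc |(A' - P * B') + (A - A') - P * (B - B')| ≤ |(A' - P * B') + (A - A')| + |P * (B - B')| := abs_sub _ _
      _ ≤ (|A' - P * B'| + |A - A'|) + |P * (B - B')| := by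
          have := abs_add_le (A' - P * B') (A - A')
          linarith
      _ ≤ ε + 2 * (a / N) := by linarith
  · intro S
    have e1 := h2 S
    have e2 := dens_shift N a hN (fun n => ∀ i, cardFactors (n + h i) / s ∈ S i)
    have q1 : (fun n => ∀ i, cardFactors (n + (a + h i)) / s ∈ S i) =
        fun n => ∀ i, cardFactors (n + a + h i) / s ∈ S i := by
      funext n
      simp only [add_assoc]
    rw [q1] at e1
    set A := dens N (fun n => ∀ i, cardFactors (n + h i) / s ∈ S i)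
    set A' := dens N (fun n => ∀ i, cardFactors (n + a + h i) / s ∈ S i)
    set PP := ∏ i, dens N (fun n => cardFactors n / s ∈ S i)
    have e5 : A - PP = (A' - PP) + (A - A') := by ring
    rw [e5]
    have := abs_add_le (A' - PP) (A - A')
    linarith

/-- the number of the exceptional `d` -/
theorem count {r s N x₀ : ℕ} {ε δ : ℝ} (hN : 1 ≤ N) (hx0 : 1 ≤ x₀) (hx1 : x₀ ≤ N)
    (hx2 : 2 * ((x₀ : ℝ) / N) ≤ ε / 2)
    (hb : num (Fintype.piFinset fun i => Icc 1 ((Fin.cons x₀ (fun _ : Fin r => 5 * N) : Fin (r + 1) → ℕ) i))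
      (fun h => ¬ Independent s (ε / 2) N h) ≤
        (∏ i, (((Fin.cons x₀ (fun _ : Fin r => 5 * N) : Fin (r + 1) → ℕ) i : ℕ) : ℝ)) * (N : ℝ) ^ (-δ)) :
    num (Fintype.piFinset fun _ : Fin r => Icc 1 (4 * N))
      (fun d => ¬ Independent s ε N (Fin.cons 0 d : Fin (r + 1) → ℕ)) ≤ 5 ^ r * (N : ℝ) ^ ((r : ℝ) - δ) := by
  classical
  have hN0 : (0 : ℝ) < N := by exact_mod_cast hN
  have hx0' : (0 : ℝ) < x₀ := by exact_mod_cast hx0
  rw [Fin.prod_univ_succ] at hb
  simp only [Fin.cons_zero, Fin.cons_succ, Finset.prod_const, Finset.card_univ, Fintype.card_fin] at hb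
  set x : Fin (r + 1) → ℕ := Fin.cons x₀ (fun _ : Fin r => 5 * N) with hx
  set Bd := (Fintype.piFinset fun _ : Fin r => Icc 1 (4 * N)).filter
    (fun d => ¬ Independent s ε N (Fin.cons 0 d : Fin (r + 1) → ℕ)) with hBd
  set Bt := (Fintype.piFinset fun i => Icc 1 (x i)).filter (fun h => ¬ Independent s (ε / 2) N h) with hBt
  have hcard : (Icc 1 x₀ ×ˢ Bd).card ≤ Bt.card := by
    apply card_le_card_of_injOn (fun p => (Fin.cons p.1 (fun j => p.1 + p.2 j) : Fin (r + 1) → ℕ))
    · rintro ⟨a, d⟩ hp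
      rw [mem_coe, mem_product, mem_Icc, hBd, mem_filter, Fintype.mem_piFinset] at hp
      obtain ⟨⟨ha1, ha2⟩, hd, hdb⟩ := hp
      rw [mem_coe, hBt, mem_filter, Fintype.mem_piFinset]
      constructor
      · intro i
        refine Fin.cases ?_ (fun j => ?_) i
        · simp only [Fin.cons_zero, hx, mem_Icc]
          exact ⟨ha1, ha2⟩
        · have h5 : 1 ≤ d j ∧ d j ≤ 4 * N := mem_Icc.1 (hd j)
          simp only [Fin.cons_succ, hx, mem_Icc]
          simp only at ha1 ha2
          omega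
      · intro hI
        apply hdb
        have e : (Fin.cons a (fun j => a + d j) : Fin (r + 1) → ℕ) =
            fun i => a + (Fin.cons 0 d : Fin (r + 1) → ℕ) i := by
          funext i
          refine Fin.cases ?_ (fun j => ?_) i
          · simp
          · simp
        simp only at hI
        rw [e] at hI
        have h3 := indep_shift hN hI
        have h4 : ε / 2 + 2 * ((a : ℝ) / N) ≤ ε := by
          have h5 : (a : ℝ) / N ≤ x₀ / N := by
            apply div_le_div_of_nonneg_right _ hN0.le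
            exact_mod_cast ha2
          linarith
        exact ⟨fun i S T => (h3.1 i S T).trans h4, fun S => (h3.2 S).trans h4⟩
    · rintro ⟨a, d⟩ _ ⟨a', d'⟩ _ h
      simp only at h
      have h0 : a = a' := by
        have := congrFun h 0
        simpa using this
      subst h0
      have h1 : d = d' := by
        funext j
        have := congrFun h j.succ
        simpa using this
      rw [h1]
  rw [card_product, Nat.card_Icc, Nat.add_sub_cancel] at hcard
  have e1 : num (Fintype.piFinset fun i => Icc 1 (x i)) (fun h => ¬ Independent s (ε / 2) N h) = Bt.card := by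
    unfold num
    rw [hBt]
    congr!
  have e2 : num (Fintype.piFinset fun _ : Fin r => Icc 1 (4 * N))
      (fun d => ¬ Independent s ε N (Fin.cons 0 d : Fin (r + 1) → ℕ)) = Bd.card := by
    unfold num
    rw [hBd]
    congr!
  rw [e1] at hb
  rw [e2]
  have h1 : (x₀ : ℝ) * Bd.card ≤ x₀ * ((5 * N : ℕ) : ℝ) ^ r * (N : ℝ) ^ (-δ) := by
    calc (x₀ : ℝ) * Bd.card ≤ Bt.card := by exact_mod_cast hcard
      _ ≤ _ := hb
  have h2 : (x₀ : ℝ) * Bd.card ≤ x₀ * (5 ^ r * (N : ℝ) ^ ((r : ℝ) - δ)) := by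
    refine h1.trans (le_of_eq ?_)
    push_cast
    rw [mul_pow, sub_eq_add_neg, Real.rpow_add hN0, Real.rpow_natCast]
    ring
  exact le_of_mul_le_mul_left h2 hx0'

/-- Let `r ≥ 0`, `ε > 0` and `0 < ϑ < 1`. There are `E ≥ 1`, `D ≥ 6 E + 2` and `c > 0` such that for all large `N`:
for all real vectors `y` in `[N ^ (1 - ϑ), 2 N ^ (1 - ϑ)] ^ r` outside a set of measure at most `N ^ (r (1 - ϑ) - c)`
and for all `k ≤ N ^ ϑ` with at most `N ^ (ϑ - c)` exceptions, ALL vectors `d` of natural numbers with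
`|d i - k y i| ≤ N ^ c` for all `i` are such that, for `h = (0, d 1, ..., d r)` and for every `i`, the integer part of
`Ω(n + h i) / 2` is independent, up to `ε`, of all the events that depend on the vector of the `Ω(n + h j)`, `j ≠ i`,
and is distributed as the integer part of `Ω(n) / 2`; if the scale `N` is not exceptional, the same holds for
`Ω(n + h i)` itself. There are arbitrarily large scales that are not exceptional. -/
theorem result (r : ℕ) (ε : ℝ) (hε : 0 < ε) (ϑ : ℝ) (hϑ : 0 < ϑ) (hϑ1 : ϑ < 1) :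
    ∃ E D : ℕ, 1 ≤ E ∧ 6 * E + 2 ≤ D ∧ ∃ c : ℝ, 0 < c ∧
      (∃ N₀ : ℕ, ∀ N : ℕ, N₀ ≤ N →
        AtMultiples ϑ c N (fun d : Fin r → ℕ => Independent 2 ε N (Fin.cons 0 d : Fin (r + 1) → ℕ)) ∧
        (NonExceptional E D N →
          AtMultiples ϑ c N (fun d : Fin r → ℕ => Independent 1 ε N (Fin.cons 0 d : Fin (r + 1) → ℕ)))) ∧
      ∀ N₁ : ℕ, ∃ N : ℕ, N₁ ≤ N ∧ NonExceptional E D N := by
  classical
  obtain ⟨E, D, hE, hD, δ, hδ, ⟨N₁, h1⟩, h2⟩ :=
    Pool.Agent.Results.MP_e0aac0_nt.PowerSavingIndependence.result 5 r (ε / 2) (by positivity)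
  obtain ⟨c, hc, hc1, hc2, hmain⟩ := Pool.Agent.Q331.DRV.mult r ϑ hϑ hϑ1 δ hδ
  obtain ⟨N₂, hN₂⟩ := hmain (5 ^ r)
  refine ⟨E, D, hE, hD, c, hc, ?_, h2⟩
  have tN : Tendsto (fun N : ℕ => (N : ℝ)) atTop atTop := tendsto_natCast_atTop_atTop
  obtain ⟨δ₁, hδ₁, hδ₁δ, hδ₁1⟩ : ∃ δ₁ : ℝ, 0 < δ₁ ∧ δ₁ ≤ δ ∧ δ₁ ≤ 1 / 2 :=
    ⟨min δ (1 / 2), lt_min hδ (by norm_num), min_le_left _ _, min_le_right _ _⟩
  have t1 : Tendsto (fun N : ℕ => (N : ℝ) ^ δ₁) atTop atTop := (tendsto_rpow_atTop hδ₁).comp tN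
  obtain ⟨N₃, hN₃⟩ := ((t1.eventually_ge_atTop (8 / ε + 2)).and (eventually_ge_atTop 1)).exists_forall_of_atTop
  refine ⟨N₁ + N₂ + N₃, fun N hN => ?_⟩
  obtain ⟨f1, f2⟩ := hN₃ N (by omega)
  have hN1 : (1 : ℝ) ≤ N := by exact_mod_cast f2
  have hN0 : (0 : ℝ) < N := by linarith
  obtain ⟨x₀, hx₀⟩ : ∃ x₀ : ℕ, x₀ = ⌈(N : ℝ) ^ (1 - δ₁)⌉₊ := ⟨_, rfl⟩
  have hx1 : (N : ℝ) ^ (1 - δ₁) ≤ x₀ := by rw [hx₀]; exact Nat.le_ceil _
  have hx2 : (x₀ : ℝ) ≤ (N : ℝ) ^ (1 - δ₁) + 1 := by rw [hx₀]; exact (Nat.ceil_lt_add_one (by positivity)).le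
  have hx3 : 1 ≤ x₀ := by
    have : (1 : ℝ) ≤ (N : ℝ) ^ (1 - δ₁) := Real.one_le_rpow hN1 (by linarith)
    have : (1 : ℝ) ≤ x₀ := by linarith
    exact_mod_cast this
  have hNN : (N : ℝ) ^ (1 - δ₁) * (N : ℝ) ^ δ₁ = N := by
    rw [← Real.rpow_add hN0]
    simp
  have hx4 : x₀ ≤ N := by
    rw [hx₀]
    apply Nat.ceil_le.2
    calc (N : ℝ) ^ (1 - δ₁) ≤ (N : ℝ) ^ (1 : ℝ) := Real.rpow_le_rpow_of_exponent_le hN1 (by linarith)
      _ = N := Real.rpow_one _
  have hx5 : 2 * ((x₀ : ℝ) / N) ≤ ε / 2 := by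
    have h3 : (1 : ℝ) ≤ (N : ℝ) ^ (1 - δ₁) := Real.one_le_rpow hN1 (by linarith)
    have h4 : (x₀ : ℝ) ≤ 2 * (N : ℝ) ^ (1 - δ₁) := by linarith
    have h5 : 8 / ε ≤ (N : ℝ) ^ δ₁ := by linarith
    have h6 : 8 ≤ ε * (N : ℝ) ^ δ₁ := by
      rw [div_le_iff₀ hε] at h5
      linarith
    have h7 : 8 * (N : ℝ) ^ (1 - δ₁) ≤ ε * N := by
      calc 8 * (N : ℝ) ^ (1 - δ₁) ≤ ε * (N : ℝ) ^ δ₁ * (N : ℝ) ^ (1 - δ₁) :=
            mul_le_mul_of_nonneg_right h6 (by positivity)
        _ = ε * N := by rw [mul_assoc, mul_comm ((N : ℝ) ^ δ₁), hNN]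
    rw [← mul_div_assoc, div_le_iff₀ hN0]
    linarith
  have hbox : ∀ i, (Fin.cons x₀ (fun _ : Fin r => 5 * N) : Fin (r + 1) → ℕ) i ≤ 5 * N ∧
      (N : ℝ) ^ (1 - δ) ≤ ((Fin.cons x₀ (fun _ : Fin r => 5 * N) : Fin (r + 1) → ℕ) i : ℕ) := by
    intro i
    refine Fin.cases ?_ (fun j => ?_) i
    · simp only [Fin.cons_zero]
      exact ⟨by omega, (Real.rpow_le_rpow_of_exponent_le hN1 (by linarith)).trans hx1⟩
    · simp only [Fin.cons_succ]
      refine ⟨le_rfl, ?_⟩
      push_cast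
      calc (N : ℝ) ^ (1 - δ) ≤ (N : ℝ) ^ (1 : ℝ) := Real.rpow_le_rpow_of_exponent_le hN1 (by linarith)
        _ = N := Real.rpow_one _
        _ ≤ 5 * N := by linarith
  obtain ⟨g1, g2⟩ := h1 N (by omega) _ hbox
  have fin : ∀ s : ℕ, num (Fintype.piFinset fun i => Icc 1 ((Fin.cons x₀ (fun _ : Fin r => 5 * N) : Fin (r + 1) → ℕ) i))
      (fun h => ¬ Independent s (ε / 2) N h) ≤
        (∏ i, (((Fin.cons x₀ (fun _ : Fin r => 5 * N) : Fin (r + 1) → ℕ) i : ℕ) : ℝ)) * (N : ℝ) ^ (-δ) →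
      AtMultiples ϑ c N (fun d : Fin r → ℕ => Independent s ε N (Fin.cons 0 d : Fin (r + 1) → ℕ)) := by
    intro s hs
    have h3 := count f2 hx3 hx4 hx5 hs
    obtain ⟨X, hX1, hX2, hX3⟩ := hN₂ N (by omega)
      (fun d => ¬ Independent s ε N (Fin.cons 0 d : Fin (r + 1) → ℕ)) (by
        refine le_trans (le_of_eq ?_) h3
        unfold num
        congr!)
    refine ⟨X, hX1, hX2, fun y hy hyX => le_trans (le_of_eq ?_) (hX3 y hy hyX)⟩
    unfold exceptions
    congr!
  exact ⟨fin 2 g1, fun hne => fin 1 (g2 hne)⟩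

end Pool.Agent.Results.MP_e0aac0_nt.ConstellationsAtRealVectors
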