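import Pool.Agent.Q56.OM.Full

/-!
# Independence of the `Ω(n + b i)` for ALL tuples of shifts in boxes of power side around almost all tuples of members of
real sequences

The sequences: real multiples of the values of polynomials with integer coefficients, and generalised polynomials whose
largest exponent is greater than `1` and not an integer, e.g. `m ^ c`. For all tuples `m` of indices up to the sizes
`x i`, with a power saving, ALL tuples `b` of natural numbers in the box of side `N ^ δ` around the tuple of the numbers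
`β i + f i (m i)` are such that the integer part of `Ω(n + b i) / 2` is independent, up to `ε`, of everything that the
other `Ω(n + b j)` determine; if the scale `N` has no exceptional character, the same holds for `Ω(n + b i)` itself.

From the starting files: the bilinear exponential sums with functions of `Ω` over families of integers of small energy
(`Pool.Agent.TH823.OP.allJ`), the correlations of slowly varying functions of `Ω` at two points and the reduction of
the independence to them (`Pool.Agent.TH823.KB`), the scales without exceptional characters.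
From Mathlib: `ArithmeticFunction.cardFactors n`: the number `Ω(n)` of prime factors with multiplicity;
`DirichletCharacter ℂ q`: the Dirichlet characters of modulus `q`; `Finset.Icc 1 X`: the integers `n` with
`1 ≤ n ≤ X`; `Fintype.piFinset S`: the tuples `h` with `h i ∈ S i` for all `i`; `i.succAbove j` for `j < r`: the
elements of `{0, ..., r}` different from `i`, in increasing order; `m / s` for natural numbers: the integer part;
`Polynomial ℤ`, `P.eval m`: polynomials and their values.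
-/

set_option autoImplicit false

namespace Pool.Agent.Results.MP_e0aac0_nt.IndependenceBoxes

open Finset
open ArithmeticFunction (cardFactors)

/-- The primes `p` with `y < p ≤ z`. -/
def primes (y z : ℕ) : Finset ℕ := (Ioc y z).filter Nat.Prime

/-- The integer part of `N ^ (1 / (2 D))`. -/
noncomputable def root (D N : ℕ) : ℕ := ⌊(N : ℝ) ^ (1 / (2 * D : ℝ))⌋₊

/-- The scale `N` is not exceptional, with `Q = root D N`: no real nonprincipal character of modulus `q ≤ Q` has
`∑ χ(p) / p < - (3 / 5) ∑ 1 / p` over the primes `p` with `Q ^ 6 < p ≤ Q ^ (6 E)`. -/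
def NonExceptional (E D N : ℕ) : Prop :=
  ∀ q : ℕ, 1 ≤ q → q ≤ root D N → ∀ χ : DirichletCharacter ℂ q, χ ≠ 1 → χ ^ 2 = 1 →
    -(3 / 5) * ∑ p ∈ primes (root D N ^ 6) (root D N ^ (6 * E)), 1 / (p : ℝ) ≤
      ∑ p ∈ primes (root D N ^ 6) (root D N ^ (6 * E)), (χ (p : ZMod q)).re / p

open Classical in
/-- The number of the elements of the finite set `S` with the property `F`. -/
noncomputable def num {α : Type} (S : Finset α) (F : α → Prop) : ℝ := ((S.filter F).card : ℝ)

/-- The proportion of the `n` with `1 ≤ n ≤ N` that have the property `F`. -/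
noncomputable def dens (N : ℕ) (F : ℕ → Prop) : ℝ := num (Icc 1 N) F / N

/-- The vector of the `Ω(n + h j)`, `j ≠ i`. -/
def rest {r : ℕ} (h : Fin (r + 1) → ℕ) (i : Fin (r + 1)) (n : ℕ) : Fin r → ℕ :=
  fun j => cardFactors (n + h (i.succAbove j))

/-- For every coordinate `i`, for all sets `S` of integers and all sets `T` of vectors: the integer part of
`Ω(n + h i) / s` lies in `S` independently, up to `ε`, of whether the vector of the `Ω(n + h j)`, `j ≠ i`, lies in
`T`, and its law is that of `Ω(n) / s`. In particular the joint law on the products of sets is the product law. -/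
def Independent {r : ℕ} (s : ℕ) (ε : ℝ) (N : ℕ) (h : Fin (r + 1) → ℕ) : Prop :=
  (∀ (i : Fin (r + 1)) (S : Set ℕ) (T : Set (Fin r → ℕ)),
    |dens N (fun n => cardFactors (n + h i) / s ∈ S ∧ rest h i n ∈ T) -
      dens N (fun n => cardFactors n / s ∈ S) * dens N (fun n => rest h i n ∈ T)| ≤ ε) ∧
  ∀ S : Fin (r + 1) → Set ℕ,
    |dens N (fun n => ∀ i, cardFactors (n + h i) / s ∈ S i) - ∏ i, dens N (fun n => cardFactors n / s ∈ S i)| ≤ ε

/-- The sequences: either `f m = κ P m` for a nonconstant polynomial `P` with integer coefficients, of degree `c`, and a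
real number `κ ≠ 0`; or `f m = ∑ w_y m ^ y`, a sum over a finite set of real exponents, if the largest exponent `c` is
greater than `1` and not an integer and `w_c ≠ 0` (for instance `f m = m ^ c`). -/
def RealSeq (f : ℕ → ℝ) (c : ℝ) : Prop :=
  (∃ (P : Polynomial ℤ) (κ : ℝ), 1 ≤ P.natDegree ∧ κ ≠ 0 ∧ c = P.natDegree ∧
    f = fun m : ℕ => κ * ((P.eval (m : ℤ) : ℤ) : ℝ)) ∨
  (∃ (F : Finset ℝ) (w : ℝ → ℝ), c ∈ F ∧ (∀ y ∈ F, y ≤ c) ∧ w c ≠ 0 ∧ 1 < c ∧ (∀ k : ℕ, c ≠ k) ∧
    f = fun m : ℕ => ∑ y ∈ F, w y * (m : ℝ) ^ y)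

/-- For all `x i` with `N ^ (1 - δ) ≤ (x i) ^ (c i) ≤ A N` and all real `β i` in `[-A N, A N]`: for all the tuples `m`
with `1 ≤ m i ≤ x i`, with at most `x 0 ⋯ x r / N ^ δ` exceptions, ALL the tuples `b` of natural numbers with
`|b i - (β i + f i (m i))| ≤ N ^ δ` for all `i` have the property `Independent s ε N`. -/
def Boxes (A : ℕ) {r : ℕ} (f : Fin (r + 1) → ℕ → ℝ) (c : Fin (r + 1) → ℝ) (s : ℕ) (ε δ : ℝ) (N : ℕ) : Prop :=
  ∀ x : Fin (r + 1) → ℕ, (∀ i, (x i : ℝ) ^ (c i) ≤ A * N ∧ (N : ℝ) ^ (1 - δ) ≤ (x i : ℝ) ^ (c i)) →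
    ∀ β : Fin (r + 1) → ℝ, (∀ i, |β i| ≤ A * N) →
    num (Fintype.piFinset fun i => Icc 1 (x i)) (fun m => ¬ ∀ b : Fin (r + 1) → ℕ,
      (∀ i, |(b i : ℝ) - (β i + f i (m i))| ≤ (N : ℝ) ^ δ) → Independent s ε N b) ≤
        (∏ i, (x i : ℝ)) * (N : ℝ) ^ (-δ)

lemma RealSeq.base {f : ℕ → ℝ} {c : ℝ} (h : RealSeq f c) : Pool.Agent.Q56.TF.Base f c ∧ 1 ≤ c := by
  rcases h with ⟨P, κ, hd, hκ, rfl, rfl⟩ | ⟨F, w, hcF, hmax, hwc, hc, hcn, rfl⟩
  · exact ⟨(Pool.Agent.Q56.TF.base_poly P hd).dil hκ, by exact_mod_cast hd⟩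
  · exact ⟨Pool.Agent.Q56.TF.base_gp F w c hcF hmax hwc hc hcn, hc.le⟩

lemma num_eq {α : Type} (S : Finset α) (F : α → Prop) [DecidablePred F] :
    num S F = ((S.filter F).card : ℝ) := by
  unfold num
  congr!

lemma num_cn {r : ℕ} (X : ℕ) (h : Fin (r + 1) → ℕ) (i : Fin (r + 1)) (S : Set ℕ) (T : Set (Fin r → ℕ)) :
    num (Icc 1 X) (fun n => cardFactors (n + h i) ∈ S ∧ rest h i n ∈ T) = Pool.Agent.TH823.OP.cn X h i S T := by
  classical
  unfold Pool.Agent.TH823.OP.cn
  rw [num_eq]
  apply congrArg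
  apply congrArg
  exact filter_congr fun n _ => Iff.rfl

lemma num_T {r : ℕ} (X : ℕ) (h : Fin (r + 1) → ℕ) (i : Fin (r + 1)) (T : Set (Fin r → ℕ)) :
    num (Icc 1 X) (fun n => rest h i n ∈ T) = Pool.Agent.TH823.OP.cn X h i Set.univ T := by
  rw [← num_cn]
  unfold num
  congr! 3
  simp

lemma num_p1 (N : ℕ) (S : Set ℕ) :
    num (Icc 1 N) (fun n => cardFactors n ∈ S) = Pool.Agent.TH823.KB.p1 N 0 S := by
  unfold num Pool.Agent.TH823.KB.p1 Pool.Agent.TH823.KB.pn
  congr! 3
  simp

lemma num_pn {r : ℕ} (N : ℕ) (h : Fin r → ℕ) (S : Fin r → Set ℕ) :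
    num (Icc 1 N) (fun n => ∀ i, cardFactors (n + h i) ∈ S i) = Pool.Agent.TH823.KB.pn N h S := by
  unfold num Pool.Agent.TH823.KB.pn
  congr!

lemma root_pow {D Q : ℕ} (hD : 1 ≤ D) : root D (Q ^ (2 * D)) = Q := by
  unfold root
  have hD0 : (0 : ℝ) < D := by exact_mod_cast hD
  have h1 : (((Q ^ (2 * D) : ℕ) : ℝ)) ^ (1 / (2 * D : ℝ)) = Q := by
    push_cast
    rw [← Real.rpow_natCast, ← Real.rpow_mul (Nat.cast_nonneg Q)]
    push_cast
    rw [mul_one_div_cancel (by positivity), Real.rpow_one]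
  rw [h1, Nat.floor_natCast]

/-- from the property of the library to the definitions -/
lemma indep_of {r s N : ℕ} (hN : 1 ≤ N) {ε : ℝ} (hε : 0 < ε) (h : Fin (r + 1) → ℕ)
    (hh : ∀ (i : Fin (r + 1)) (S : Set ℕ) (T : Set (Fin r → ℕ)),
      |Pool.Agent.TH823.OP.cn N h i {l | l / s ∈ S} T / N -
        (Pool.Agent.TH823.KB.p1 N 0 {l | l / s ∈ S} / N) * (Pool.Agent.TH823.OP.cn N h i Set.univ T / N)| ≤
          ε / (r + 1)) : Independent s ε N h := by
  have hεr : ε / (r + 1) ≤ ε := div_le_self hε.le (by linarith [(Nat.cast_nonneg r : (0 : ℝ) ≤ r)])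
  refine ⟨fun i S T => ?_, fun S => ?_⟩
  · have h1 := num_cn N h i {l | l / s ∈ S} T
    change num (Icc 1 N) (fun n => cardFactors (n + h i) / s ∈ S ∧ rest h i n ∈ T) = _ at h1
    have h2 := num_p1 N {l | l / s ∈ S}
    change num (Icc 1 N) (fun n => cardFactors n / s ∈ S) = _ at h2
    unfold dens
    rw [h1, h2, num_T]
    exact (hh i S T).trans hεr
  · have h1 := num_pn N h (fun i => {l | l / s ∈ S i})
    change num (Icc 1 N) (fun n => ∀ i, cardFactors (n + h i) / s ∈ S i) = _ at h1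
    have h2 : ∀ i, num (Icc 1 N) (fun n => cardFactors n / s ∈ S i) =
        Pool.Agent.TH823.KB.p1 N 0 {l | l / s ∈ S i} := fun i => num_p1 N {l | l / s ∈ S i}
    unfold dens
    rw [h1]
    simp only [h2]
    refine (Pool.Agent.TH823.KB.prod_of_full hN h (fun i => {l | l / s ∈ S i})
      (fun i T => hh i (S i) T)).trans (le_of_eq ?_)
    field_simp

/-- Let `f 0, ..., f r` be real sequences (real multiples of nonconstant integer polynomials, or generalised polynomials
whose largest exponent is greater than `1` and not an integer, e.g. `m ^ c`), let `A` be an integer and `ε > 0`. There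
are `E ≥ 1`, `D ≥ 6 E + 2` and `δ > 0` such that, for all large `N`, all `x i` with `N ^ (1 - δ) ≤ (x i) ^ (c i) ≤ A N`
and all real `β i` in `[-A N, A N]`: for all the tuples `m` of indices, `1 ≤ m i ≤ x i`, but `x 0 ⋯ x r / N ^ δ` of
them, ALL the tuples `b` of natural numbers with `|b i - (β i + f i (m i))| ≤ N ^ δ` are such that, for every `i`, the
integer part of `Ω(n + b i) / 2` is independent, up to `ε`, of all the events that depend on the vector of the
`Ω(n + b j)`, `j ≠ i`, and is distributed as the integer part of `Ω(n) / 2`, and the joint law on products of sets is the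
product law; if the scale `N` is not exceptional, the same holds for `Ω(n + b i)` itself. There are arbitrarily large
scales that are not exceptional. -/
theorem result (A r : ℕ) (f : Fin (r + 1) → ℕ → ℝ) (c : Fin (r + 1) → ℝ) (hf : ∀ i, RealSeq (f i) (c i)) (ε : ℝ)
    (hε : 0 < ε) :
    ∃ E D : ℕ, 1 ≤ E ∧ 6 * E + 2 ≤ D ∧ ∃ δ : ℝ, 0 < δ ∧
      (∃ N₀ : ℕ, ∀ N : ℕ, N₀ ≤ N → Boxes A f c 2 ε δ N ∧ (NonExceptional E D N → Boxes A f c 1 ε δ N)) ∧
      ∀ N₁ : ℕ, ∃ N : ℕ, N₁ ≤ N ∧ NonExceptional E D N := by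
  classical
  obtain ⟨E01, hgs⟩ := Pool.Agent.TH823.PS.good_scales
  have hr0 : (0 : ℝ) < (r : ℝ) + 1 := by positivity
  obtain ⟨η, hη⟩ : ∃ η : ℝ, η = min ε 1 := ⟨_, rfl⟩
  have hη0 : 0 < η := by rw [hη]; positivity
  have hηr : η / (r + 1) ≤ 1 := by
    rw [div_le_one hr0]
    have h1 : η ≤ 1 := by rw [hη]; exact min_le_right _ _
    have h2 : (0 : ℝ) ≤ r := Nat.cast_nonneg r
    linarith
  have hηε : η / (r + 1) ≤ ε / (r + 1) := div_le_div_of_nonneg_right (by rw [hη]; exact min_le_left _ _) hr0.le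
  obtain ⟨E, D, hE, hD, δ, hδ, N₀, h⟩ := Pool.Agent.Q56.OM.full_win E01 A r f c (fun i => (hf i).base.1)
    (fun i => (hf i).base.2) (ε := η / (r + 1)) (by positivity) hηr
  have hcount : ∀ s N : ℕ, N₀ + 1 ≤ N →
      (s = 1 ∧ Pool.Agent.TH823.PS.NE 6 E ⌊(N : ℝ) ^ (1 / (2 * D : ℝ))⌋₊ ∨ s = 2) → Boxes A f c s ε δ N := by
    intro s N hN hs x hx β hβ
    refine le_trans ?_ (h N (by omega) x hx β hβ s hs)
    rw [num_eq]
    apply Nat.cast_le.2
    apply card_le_card
    intro m hm
    rw [mem_filter] at hm ⊢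
    obtain ⟨h1, h2⟩ := hm
    push Not at h2
    obtain ⟨b, hb1, hb2⟩ := h2
    exact ⟨h1, b, hb1, fun hcon => hb2 (indep_of (by omega) hε b fun i S T => (hcon i S T).trans hηε)⟩
  refine ⟨E, D, by omega, hD, δ, hδ, ⟨N₀ + 1, fun N hN => ⟨?_, fun hne => ?_⟩⟩, fun N₁ => ?_⟩
  · exact hcount 2 N hN (Or.inr rfl)
  · refine hcount 1 N hN (Or.inl ⟨rfl, ?_⟩)
    intro q _ hq χ hχ1 hχ2
    have h5 := hne q (Nat.pos_of_ne_zero (NeZero.ne q)) hq χ hχ1 hχ2
    refine le_trans h5 (le_of_eq ?_)
    apply sum_congr rfl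
    intro p _
    rw [Pool.Agent.TH823.PS.rt_zero]
  · obtain ⟨Q, hQ, hNE⟩ := hgs E (by omega) 6 (by norm_num) (N₁ + 1)
    refine ⟨Q ^ (2 * D), ?_, ?_⟩
    · have : Q ≤ Q ^ (2 * D) := Nat.le_self_pow (by omega) Q
      omega
    · intro q hq1 hq χ hχ1 hχ2
      rw [root_pow (by omega)] at hq ⊢
      have : NeZero q := ⟨by omega⟩
      refine le_trans (hNE q hq χ hχ1 hχ2) (le_of_eq ?_)
      apply sum_congr rfl
      intro p _
      rw [Pool.Agent.TH823.PS.rt_zero]

end Pool.Agent.Results.MP_e0aac0_nt.IndependenceBoxes
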