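import Pool.Agent.Q42.SH.Mod
import Pool.Agent.Y958.U.Diag

/-!
# `Ω(n + h) + Ω(n + h + t) + ⋯ + Ω(n + h + (k-1) t)` modulo `m`

At almost all scales the sum of `Ω` over any number `k` of points of a progression lies in a given set `A`
of residue classes modulo `m` with density at most `(1 + |A - A| / m) / 2`; for a single class this is
`(m + 1) / (2 m)`.  Replacing `n` by `n + t` changes the sum by `Ω(n + h + k t) - Ω(n + h)`, which is
equidistributed modulo `m`.
-/

set_option autoImplicit false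

open Finset Filter
open scoped Pointwise

namespace Pool.Agent.Results.MP_e0aac0_nt.SumsInProgression

/-- `Ω(n)`, the number of prime factors counted with multiplicity -/
def Om (n : ℕ) : ℕ := ArithmeticFunction.cardFactors n

open Classical in
/-- logarithmic density zero -/
def LogDensityZero (E : Set ℕ) : Prop :=
  Tendsto (fun X : ℕ => (∑ N ∈ Icc 1 X, if N ∈ E then (1 : ℝ) / N else 0) / Real.log X) atTop (nhds 0)

/-- `Ω(n + h) + Ω(n + h + t) + ⋯ + Ω(n + h + (k-1) t)` -/
def OmSum (k t h n : ℕ) : ℕ := ∑ j ∈ range k, Om (n + h + j * t)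

/-- **Theorem.** There is one set `𝓔` of logarithmic density zero such that for every number `k ≥ 1` of
points, every difference `t ≥ 1`, every `h`, every modulus `m ≥ 1`, every set `A` of residue classes modulo
`m` and every `ε > 0`:
* for all large `N` outside `𝓔`, at most `((1 + |A - A| / m) / 2 + ε) N` of the integers `n ≤ N` have
  `Ω(n + h) + Ω(n + h + t) + ⋯ + Ω(n + h + (k-1) t)` in `A` modulo `m`;
* for all large `X`, the sum of `1 / n` over these `n ≤ X` is at most
  `((1 + |A - A| / m) / 2 + ε) log X`. -/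
theorem result : ∃ 𝓔 : Set ℕ, LogDensityZero 𝓔 ∧
    ∀ k t h m : ℕ, 1 ≤ k → 1 ≤ t → 1 ≤ m → ∀ A : Finset (ZMod m), ∀ ε : ℝ, 0 < ε →
      (∃ N₀ : ℕ, ∀ N : ℕ, N₀ ≤ N → N ∉ 𝓔 →
        (((Icc 1 N).filter (fun n => (OmSum k t h n : ZMod m) ∈ A)).card : ℝ) ≤
          ((1 + ((A - A).card : ℝ) / m) / 2 + ε) * N) ∧
      ∃ X₀ : ℕ, ∀ X : ℕ, X₀ ≤ X →
        ∑ n ∈ (Icc 1 X).filter (fun n => (OmSum k t h n : ZMod m) ∈ A), (1 : ℝ) / n ≤
          ((1 + ((A - A).card : ℝ) / m) / 2 + ε) * Real.log X := by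
  classical
  obtain ⟨E, hE, h1⟩ := Pool.Agent.Q42.SH.diff_equi
  have key : ∀ k t h m : ℕ, 1 ≤ k → 1 ≤ t → 1 ≤ m → ∀ A : Finset (ZMod m), ∀ ε : ℝ, 0 < ε →
      ∃ N₀ : ℕ, ∀ N : ℕ, N₀ ≤ N → N ∉ E →
        (((Icc 1 N).filter (fun n => (OmSum k t h n : ZMod m) ∈ A)).card : ℝ) ≤
          ((1 + ((A - A).card : ℝ) / m) / 2 + ε) * N := by
    intro k t h m hk ht hm A ε hε
    obtain ⟨N₀, h2⟩ := h1 m hm (h + k * t) h (by
      have : 0 < k * t := Nat.mul_pos hk ht
      omega) (A - A) ε hε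
    refine ⟨N₀ + ⌈t / ε⌉₊, fun N hN hNE => ?_⟩
    have h3 := (abs_le.1 (h2 N (by omega) hNE)).2
    have h4 : (t : ℝ) / ε ≤ N := (Nat.le_ceil _).trans (Nat.cast_le.2 (by omega))
    rw [div_le_iff₀ hε] at h4
    set a : ℕ → ℕ := fun n => if (OmSum k t h n : ZMod m) ∈ A then 1 else 0 with ha
    set D : ℕ → ℕ := fun n => if ((Om (n + (h + k * t)) : ℕ) : ZMod m) - ((Om (n + h) : ℕ) : ZMod m) ∈ A - A
      then 1 else 0 with hD
    have h5 : ∀ n, a n + a (n + t) ≤ 1 + D n := by
      intro n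
      rw [ha, hD]
      dsimp only
      by_cases c1 : (OmSum k t h n : ZMod m) ∈ A
      · by_cases c2 : (OmSum k t h (n + t) : ZMod m) ∈ A
        · have c3 : (OmSum k t h (n + t) : ZMod m) - (OmSum k t h n : ZMod m) ∈ A - A :=
            sub_mem_sub c2 c1
          have c4 : OmSum k t h (n + t) + Om (n + h) = OmSum k t h n + Om (n + (h + k * t)) := by
            unfold OmSum
            have d1 := sum_range_succ (fun j => Om (n + h + j * t)) k
            have d2 := sum_range_succ' (fun j => Om (n + h + j * t)) k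
            have d3 : ∑ j ∈ range k, Om (n + t + h + j * t) = ∑ j ∈ range k, Om (n + h + (j + 1) * t) :=
              sum_congr rfl fun j _ => by ring_nf
            have d4 : Om (n + (h + k * t)) = Om (n + h + k * t) := by ring_nf
            have d5 : Om (n + h) = Om (n + h + 0 * t) := by ring_nf
            rw [d3, d4, d5, ← d2, ← d1]
          have c5 : ((OmSum k t h (n + t) : ℕ) : ZMod m) + ((Om (n + h) : ℕ) : ZMod m) =
              ((OmSum k t h n : ℕ) : ZMod m) + ((Om (n + (h + k * t)) : ℕ) : ZMod m) := by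
            exact_mod_cast congrArg (fun x : ℕ => (x : ZMod m)) c4
          have c6 : ((Om (n + (h + k * t)) : ℕ) : ZMod m) - ((Om (n + h) : ℕ) : ZMod m) =
              (OmSum k t h (n + t) : ZMod m) - (OmSum k t h n : ZMod m) := by
            linear_combination -c5
          rw [c6]
          simp only [c1, c2, c3, if_true]
          exact le_rfl
        · simp only [c1, c2, if_true, if_false]
          omega
      · by_cases c2 : (OmSum k t h (n + t) : ZMod m) ∈ A
        · simp only [c1, c2, if_true, if_false]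
          omega
        · simp only [c1, c2, if_false]
          omega
    have h6 : ∑ n ∈ Icc 1 N, a n ≤ ∑ n ∈ Icc 1 N, a (n + t) + t := by
      have e1 : ∑ n ∈ Icc 1 N, a (n + t) = ∑ n ∈ Icc (1 + t) (N + t), a n := by
        rw [← sum_image (f := a) (g := fun n => n + t) (s := Icc 1 N) (by
          intro x _ y _ hxy
          simpa using hxy)]
        congr 1
        ext x
        simp only [mem_image, mem_Icc]
        constructor
        · rintro ⟨y, hy, rfl⟩
          omega
        · intro hx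
          exact ⟨x - t, by omega, by omega⟩
      have e2 : Icc 1 N ⊆ Icc 1 t ∪ Icc (1 + t) (N + t) := by
        intro x hx
        rw [mem_Icc] at hx
        rw [mem_union, mem_Icc, mem_Icc]
        omega
      have e3 : ∑ n ∈ Icc 1 t, a n ≤ t := by
        calc ∑ n ∈ Icc 1 t, a n ≤ ∑ _n ∈ Icc 1 t, 1 := sum_le_sum fun n _ => by
              rw [ha]
              dsimp only
              split_ifs <;> omega
          _ = t := by simp
      calc ∑ n ∈ Icc 1 N, a n ≤ ∑ n ∈ Icc 1 t ∪ Icc (1 + t) (N + t), a n :=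
            sum_le_sum_of_subset e2
        _ ≤ ∑ n ∈ Icc 1 t, a n + ∑ n ∈ Icc (1 + t) (N + t), a n := by
            rw [← sum_union_inter]
            exact Nat.le_add_right _ _
        _ ≤ _ := by rw [← e1]; omega
    have h7 : ∑ n ∈ Icc 1 N, a n + ∑ n ∈ Icc 1 N, a (n + t) ≤ N + ∑ n ∈ Icc 1 N, D n := by
      rw [← sum_add_distrib]
      refine (sum_le_sum fun n _ => h5 n).trans (le_of_eq ?_)
      rw [sum_add_distrib]
      simp
    have h8 : ∑ n ∈ Icc 1 N, a n = ((Icc 1 N).filter (fun n => (OmSum k t h n : ZMod m) ∈ A)).card := by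
      rw [card_filter]
    have h9 : ∑ n ∈ Icc 1 N, D n = ((Icc 1 N).filter (fun n =>
        ((ArithmeticFunction.cardFactors (n + (h + k * t)) : ℕ) : ZMod m) -
        ((ArithmeticFunction.cardFactors (n + h) : ℕ) : ZMod m) ∈ A - A)).card := by
      rw [card_filter]
      rfl
    rw [← h8]
    have h10 : 2 * ∑ n ∈ Icc 1 N, a n ≤ t + (N + ∑ n ∈ Icc 1 N, D n) := by omega
    rw [h9] at h10
    have h11 : (2 : ℝ) * ((∑ n ∈ Icc 1 N, a n : ℕ) : ℝ) ≤ t + (N + (((Icc 1 N).filter (fun n =>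
        ((ArithmeticFunction.cardFactors (n + (h + k * t)) : ℕ) : ZMod m) -
        ((ArithmeticFunction.cardFactors (n + h) : ℕ) : ZMod m) ∈ A - A)).card : ℝ)) := by
      exact_mod_cast h10
    linarith
  refine ⟨E, hE, fun k t h m hk ht hm A ε hε => ⟨key k t h m hk ht hm A ε hε, ?_⟩⟩
  obtain ⟨N₀, h2⟩ := key k t h m hk ht hm A (ε / 4) (by positivity)
  have hm0 : (0 : ℝ) < m := by exact_mod_cast hm
  set C : ℝ := (1 + ((A - A).card : ℝ) / m) / 2 with hC
  have hC0 : 0 ≤ C := by positivity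
  have hT : LogDensityZero (E ∪ {N | N < N₀}) :=
    Pool.Agent.Y958.U.LZ_union hE (Pool.Agent.Y958.U.LZ_bdd _ N₀ fun n hn => hn)
  have hlog : Tendsto (fun X : ℕ => Real.log X) atTop atTop :=
    Real.tendsto_log_atTop.comp tendsto_natCast_atTop_atTop
  have h3 := hT.eventually (ge_mem_nhds (show (0 : ℝ) < ε / 4 by positivity))
  obtain ⟨X₀, hX₀⟩ := eventually_atTop.1 (h3.and ((hlog.eventually_ge_atTop ((C + ε + 1) * 4 / ε)).and
    (hlog.eventually_gt_atTop 0)))
  refine ⟨X₀, fun X hX => ?_⟩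
  obtain ⟨b1, b2, b3⟩ := hX₀ X hX
  rw [div_le_iff₀ b3] at b1
  rw [div_le_iff₀ hε] at b2
  have e0 : ∀ N : ℕ, ‖∑ n ∈ Icc 1 N, (if (OmSum k t h n : ZMod m) ∈ A then (1 : ℂ) else 0)‖ =
      (((Icc 1 N).filter (fun n => (OmSum k t h n : ZMod m) ∈ A)).card : ℝ) := by
    intro N
    rw [sum_ite, sum_const_zero, add_zero, sum_const, nsmul_eq_mul, mul_one, Complex.norm_natCast]
  have h4 := Pool.Agent.Q42.SH.log_c (fun n => if (OmSum k t h n : ZMod m) ∈ A then (1 : ℂ) else 0)
    (fun n => by split_ifs <;> simp) (C + ε / 4) (by positivity) X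
    (E ∪ {N | N < N₀}) (fun N hN1 hNX hNT => by
      have c1 : N ∉ E := fun hh => hNT (Or.inl hh)
      have c2 : N₀ ≤ N := by
        by_contra hcc
        exact hNT (Or.inr (not_le.1 hcc))
      rw [e0 N]
      exact h2 N c2 c1)
  have h5 : ‖∑ n ∈ Icc 1 X, (if (OmSum k t h n : ZMod m) ∈ A then (1 : ℂ) else 0) / n‖ =
      ∑ n ∈ (Icc 1 X).filter (fun n => (OmSum k t h n : ZMod m) ∈ A), (1 : ℝ) / n := by
    have e1 : ∑ n ∈ Icc 1 X, (if (OmSum k t h n : ZMod m) ∈ A then (1 : ℂ) else 0) / n =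
        ((∑ n ∈ (Icc 1 X).filter (fun n => (OmSum k t h n : ZMod m) ∈ A), (1 : ℝ) / n : ℝ) : ℂ) := by
      rw [sum_filter]
      push_cast
      refine sum_congr rfl fun n _ => ?_
      split_ifs <;> simp
    rw [e1, Complex.norm_real, Real.norm_of_nonneg]
    exact sum_nonneg fun n _ => by positivity
  rw [← h5]
  refine h4.trans ?_
  have e1 : (C + ε / 4) * (1 + Real.log X) = C * Real.log X + ε / 4 * Real.log X +
    (C + ε / 4) := by ring
  rw [e1]
  have e2 : (C + ε) * Real.log X = C * Real.log X + ε * Real.log X := by ring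
  rw [e2]
  nlinarith

end Pool.Agent.Results.MP_e0aac0_nt.SumsInProgression
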